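import Pool.Agent.Helper95.PW.Stmts

set_option autoImplicit false

namespace Pool.Agent.Helper2.PW

open MeasureTheory Filter
open Pool.Agent.Helper95.PW

/-- evaluation at electron `k` as a continuous linear map -/
theorem stb_ev {n : ℕ} (k : Fin n) {g : R3 → ℝ} (hg : ContDiff ℝ (⊤ : ℕ∞) g) :
    ContDiff ℝ (⊤ : ℕ∞) (fun x : Cf n => g (x k)) :=
  hg.comp (contDiff_apply ℝ R3 k)

theorem stb_pd {g : R3 → ℝ} (i : Fin 3) (hg : ContDiff ℝ (⊤ : ℕ∞) g) :
    ContDiff ℝ (⊤ : ℕ∞) (pd i g) := by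
  have h : ContDiff ℝ (⊤ : ℕ∞) (fderiv ℝ g) := hg.fderiv_right (by exact_mod_cast le_top)
  exact h.clm_apply contDiff_const

theorem stb_lap {g : R3 → ℝ} (hg : ContDiff ℝ (⊤ : ℕ∞) g) : ContDiff ℝ (⊤ : ℕ∞) (lap g) := by
  unfold lap
  exact ContDiff.sum fun i _ => stb_pd i (stb_pd i hg)

theorem stb_dv {n : ℕ} (k : Fin n) (i : Fin 3) {v : Cf n → ℝ} (hv : ContDiff ℝ (⊤ : ℕ∞) v) :
    ContDiff ℝ (⊤ : ℕ∞) (dv k i v) := by
  have h : ContDiff ℝ (⊤ : ℕ∞) (fderiv ℝ v) := hv.fderiv_right (by exact_mod_cast le_top)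
  exact h.clm_apply contDiff_const

theorem stb_cs_dv {n : ℕ} (k : Fin n) (i : Fin 3) {v : Cf n → ℝ} (hv : HasCompactSupport v) :
    HasCompactSupport (dv k i v) := by
  have h := hv.fderiv (𝕜 := ℝ)
  exact h.comp_left (g := fun L : (Cf n →L[ℝ] ℝ) => L (Pi.single k (Pi.single i 1))) (by simp)

theorem stb_Fg {n : ℕ} {g : R3 → ℝ} {v : Cf n → ℝ} (hg : ContDiff ℝ (⊤ : ℕ∞) g)
    (hv : ContDiff ℝ (⊤ : ℕ∞) v) : ContDiff ℝ (⊤ : ℕ∞) (Fg g v) := by
  unfold Fg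
  exact (ContDiff.sum fun k _ => stb_ev k hg).mul hv

theorem stb_Pg {n : ℕ} {g : R3 → ℝ} {v : Cf n → ℝ} (hg : ContDiff ℝ (⊤ : ℕ∞) g)
    (hv : ContDiff ℝ (⊤ : ℕ∞) v) : ContDiff ℝ (⊤ : ℕ∞) (Pg g v) := by
  unfold Pg
  refine ContDiff.sum fun k _ => ContDiff.add (ContDiff.sum fun i _ => ?_) ?_
  · exact (stb_ev k (stb_pd i hg)).mul (stb_dv k i hv)
  · exact ((stb_ev k (stb_lap hg)).div_const 2).mul hv

theorem stb_cs_Fg {n : ℕ} {g : R3 → ℝ} {v : Cf n → ℝ} (hv : HasCompactSupport v) :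
    HasCompactSupport (Fg g v) := by
  unfold Fg
  exact hv.mul_left

theorem stb_cs_Pg {n : ℕ} {g : R3 → ℝ} {v : Cf n → ℝ} (hv : HasCompactSupport v) :
    HasCompactSupport (Pg g v) := by
  refine HasCompactSupport.intro' hv (isClosed_tsupport v) fun x hx => ?_
  have h1 : v x = 0 := image_eq_zero_of_notMem_tsupport hx
  have h2 : fderiv ℝ v x = 0 := by
    by_contra h
    exact hx (support_fderiv_subset ℝ h)
  unfold Pg
  refine Finset.sum_eq_zero fun k _ => ?_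
  rw [h1, mul_zero, add_zero]
  refine Finset.sum_eq_zero fun i _ => ?_
  rw [dv, h2]
  simp

theorem stb_dv_perm {n : ℕ} {u : Wf n} (hu : Sm u) (ha : Anti u) (π : Equiv.Perm (Fin n))
    (s : Fin n → Fin 2) (x : Cf n) (k : Fin n) (i : Fin 3) :
    dv k i (u (fun j => s (π j))) (fun j => x (π j)) =
      ((Equiv.Perm.sign π : ℤ) : ℝ) * dv (π k) i (u s) x := by
  obtain ⟨L, hL⟩ : ∃ L : Cf n →L[ℝ] Cf n, ∀ y : Cf n, L y = fun j => y (π j) :=
    ⟨ContinuousLinearMap.pi (fun j => ContinuousLinearMap.proj (π j)), fun y => rfl⟩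
  have d1 : DifferentiableAt ℝ (u (fun j => s (π j))) (L x) :=
    ((hu _).1.differentiable (by simp)) _
  have d2 : DifferentiableAt ℝ (u s) x := ((hu _).1.differentiable (by simp)) _
  have h1 : HasFDerivAt (fun y : Cf n => u (fun j => s (π j)) (L y))
      ((fderiv ℝ (u (fun j => s (π j))) (L x)).comp L) x :=
    d1.hasFDerivAt.comp x L.hasFDerivAt
  have h2 : HasFDerivAt (fun y : Cf n => ((Equiv.Perm.sign π : ℤ) : ℝ) * u s y)
      (((Equiv.Perm.sign π : ℤ) : ℝ) • fderiv ℝ (u s) x) x := d2.hasFDerivAt.const_mul _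
  have h3 : (fun y : Cf n => u (fun j => s (π j)) (L y)) =
      fun y : Cf n => ((Equiv.Perm.sign π : ℤ) : ℝ) * u s y := by
    funext y
    rw [hL y]
    exact ha π s y
  rw [h3] at h1
  have h4 := h1.unique h2
  have h5 : L (Pi.single (π k) (Pi.single i 1)) = Pi.single k (Pi.single i 1) := by
    rw [hL]
    funext j
    by_cases hj : j = k
    · subst hj
      rw [Pi.single_eq_same, Pi.single_eq_same]
    · rw [Pi.single_eq_of_ne hj, Pi.single_eq_of_ne (fun h => hj (π.injective h))]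
  have h6 := congrArg (fun M : Cf n →L[ℝ] ℝ => M (Pi.single (π k) (Pi.single i 1))) h4
  simp only [ContinuousLinearMap.comp_apply, ContinuousLinearMap.smul_apply, smul_eq_mul] at h6
  rw [h5, hL x] at h6
  exact h6

theorem stb_anti_Fg {n : ℕ} {g : R3 → ℝ} {u : Wf n} (ha : Anti u) :
    Anti (fun s => Fg g (u s)) := by
  intro π s x
  change (∑ k, g (x (π k))) * u (fun i => s (π i)) (fun i => x (π i)) =
    ((Equiv.Perm.sign π : ℤ) : ℝ) * ((∑ k, g (x k)) * u s x)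
  rw [ha π s x, Equiv.sum_comp π (fun k => g (x k))]
  ring

theorem stb_anti_Pg {n : ℕ} {g : R3 → ℝ} {u : Wf n} (hu : Sm u) (ha : Anti u) :
    Anti (fun s => Pg g (u s)) := by
  intro π s x
  change (∑ k, ((∑ i, pd i g (x (π k)) * dv k i (u (fun j => s (π j))) (fun j => x (π j))) +
      lap g (x (π k)) / 2 * u (fun j => s (π j)) (fun j => x (π j)))) =
    ((Equiv.Perm.sign π : ℤ) : ℝ) *
      ∑ k, ((∑ i, pd i g (x k) * dv k i (u s) x) + lap g (x k) / 2 * u s x)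
  rw [ha π s x, ← Equiv.sum_comp π (fun k => (∑ i, pd i g (x k) * dv k i (u s) x) +
    lap g (x k) / 2 * u s x), Finset.mul_sum]
  refine Finset.sum_congr rfl fun k _ => ?_
  rw [mul_add, Finset.mul_sum]
  congr 1
  · refine Finset.sum_congr rfl fun i _ => ?_
    rw [stb_dv_perm hu ha]
    ring
  · ring

theorem st_STB : ST_STB := by
  intro n g u hg hu
  refine ⟨fun s => ⟨stb_Fg hg (hu s).1, stb_cs_Fg (hu s).2⟩,
    fun s => ⟨stb_Pg hg (hu s).1, stb_cs_Pg (hu s).2⟩, fun ha => ⟨stb_anti_Fg ha, stb_anti_Pg hu ha⟩⟩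

end Pool.Agent.Helper2.PW
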