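import Pool.Agent.Helper2.PW.STB

set_option autoImplicit false

namespace Pool.Agent.Helper2.PW

open MeasureTheory Filter
open Pool.Agent.Helper95.PW

theorem pan_comp {n : ℕ} (k : Fin n) (i : Fin 3) {h : R3 → ℝ} (hh : ContDiff ℝ (⊤ : ℕ∞) h)
    (x : Cf n) : dv k i (fun x : Cf n => h (x k)) x = pd i h (x k) := by
  have h1 : HasFDerivAt h (fderiv ℝ h (x k)) (x k) :=
    ((hh.differentiable (by simp)) (x k)).hasFDerivAt
  have h2 : HasFDerivAt (fun x : Cf n => x k)
      (ContinuousLinearMap.proj (R := ℝ) (φ := fun _ : Fin n => R3) k) x :=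
    (ContinuousLinearMap.proj (R := ℝ) (φ := fun _ : Fin n => R3) k).hasFDerivAt
  have h3 := h1.comp x h2
  have h4 : fderiv ℝ (fun x : Cf n => h (x k)) x = _ := h3.fderiv
  unfold dv pd
  rw [h4, ContinuousLinearMap.comp_apply]
  congr 1
  change (Pi.single k (Pi.single i 1) : Cf n) k = _
  rw [Pi.single_eq_same]

theorem pan_mul {n : ℕ} (k : Fin n) (i : Fin 3) {f g : Cf n → ℝ} (hf : ContDiff ℝ (⊤ : ℕ∞) f)
    (hg : ContDiff ℝ (⊤ : ℕ∞) g) (x : Cf n) :
    dv k i (fun x => f x * g x) x = f x * dv k i g x + g x * dv k i f x := by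
  have h1 := ((hf.differentiable (by simp)) x).hasFDerivAt
  have h2 := ((hg.differentiable (by simp)) x).hasFDerivAt
  have h3 : fderiv ℝ (fun x => f x * g x) x = _ := (h1.mul h2).fderiv
  unfold dv
  rw [h3]
  simp

theorem pan_int {n : ℕ} {v f : Cf n → ℝ} (hv : Continuous v) (hc : HasCompactSupport v)
    (hf : Continuous f) : Integrable (fun x => v x * f x) :=
  Continuous.integrable_of_hasCompactSupport (hv.mul hf) hc.mul_right

theorem pan_key (hI : ST_IBP) {n : ℕ} (g : R3 → ℝ) (v w : Cf n → ℝ) (hg : ContDiff ℝ (⊤ : ℕ∞) g)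
    (hv : ContDiff ℝ (⊤ : ℕ∞) v) (hc : HasCompactSupport v) (hw : ContDiff ℝ (⊤ : ℕ∞) w)
    (k : Fin n) (i : Fin 3) :
    ∫ x, pd i g (x k) * dv k i v x * w x =
      -(∫ x, v x * (pd i g (x k) * dv k i w x)) - ∫ x, v x * (pd i (pd i g) (x k) * w x) := by
  have ha := stb_ev k (stb_pd i hg)
  have h1 := hI n k i v (fun x => pd i g (x k) * w x) hv hc (ha.mul hw)
  have h2 : ∀ x : Cf n, pd i g (x k) * dv k i v x * w x = dv k i v x * (pd i g (x k) * w x) := by
    intro x; ring
  simp only [h2]
  rw [h1]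
  have h3 : ∀ x : Cf n, v x * dv k i (fun x => pd i g (x k) * w x) x =
      v x * (pd i g (x k) * dv k i w x) + v x * (pd i (pd i g) (x k) * w x) := by
    intro x
    rw [pan_mul k i ha hw, pan_comp k i (stb_pd i hg)]
    ring
  simp only [h3]
  rw [integral_add]
  · ring
  · exact pan_int hv.continuous hc (ha.continuous.mul (stb_dv k i hw).continuous)
  · exact pan_int hv.continuous hc
      ((stb_ev k (stb_pd i (stb_pd i hg))).continuous.mul hw.continuous)

theorem st_PAN (hI : ST_IBP) : ST_PAN := by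
  intro n g v w hg hv hc hw
  have cv := hv.continuous
  have cw := hw.continuous
  have ca : ∀ (k : Fin n) (i : Fin 3), Continuous fun x : Cf n => pd i g (x k) := fun k i =>
    (stb_ev k (stb_pd i hg)).continuous
  have caa : ∀ (k : Fin n) (i : Fin 3), Continuous fun x : Cf n => pd i (pd i g) (x k) :=
    fun k i => (stb_ev k (stb_pd i (stb_pd i hg))).continuous
  have cl : ∀ k : Fin n, Continuous fun x : Cf n => lap g (x k) := fun k =>
    (stb_ev k (stb_lap hg)).continuous
  have i1 : ∀ (k : Fin n) (i : Fin 3), Integrable fun x : Cf n =>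
      pd i g (x k) * dv k i v x * w x := by
    intro k i
    have := pan_int (stb_dv k i hv).continuous (stb_cs_dv k i hc) ((ca k i).mul cw)
    refine this.congr (Eventually.of_forall fun x => ?_)
    change dv k i v x * (pd i g (x k) * w x) = pd i g (x k) * dv k i v x * w x
    ring
  have i2 : ∀ (k : Fin n), Integrable fun x : Cf n => v x * (lap g (x k) * w x) := fun k =>
    pan_int cv hc ((cl k).mul cw)
  have i3 : ∀ (k : Fin n) (i : Fin 3), Integrable fun x : Cf n =>
      v x * (pd i g (x k) * dv k i w x) := fun k i =>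
    pan_int cv hc ((ca k i).mul (stb_dv k i hw).continuous)
  have i4 : ∀ (k : Fin n) (i : Fin 3), Integrable fun x : Cf n =>
      v x * (pd i (pd i g) (x k) * w x) := fun k i =>
    pan_int cv hc ((caa k i).mul cw)
  have e1 : ∀ x : Cf n, Pg g v x * w x =
      ∑ k, ((∑ i, pd i g (x k) * dv k i v x * w x) + (1 / 2) * (v x * (lap g (x k) * w x))) := by
    intro x
    unfold Pg
    rw [Finset.sum_mul]
    refine Finset.sum_congr rfl fun k _ => ?_
    rw [add_mul, Finset.sum_mul]
    congr 1
    ring
  have e2 : ∀ x : Cf n, v x * Pg g w x =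
      ∑ k, ((∑ i, v x * (pd i g (x k) * dv k i w x)) + (1 / 2) * (v x * (lap g (x k) * w x))) := by
    intro x
    unfold Pg
    rw [Finset.mul_sum]
    refine Finset.sum_congr rfl fun k _ => ?_
    rw [mul_add, Finset.mul_sum]
    congr 1
    ring
  simp only [e1, e2]
  rw [integral_finsetSum, integral_finsetSum, ← Finset.sum_neg_distrib]
  · refine Finset.sum_congr rfl fun k _ => ?_
    rw [integral_add (integrable_finsetSum _ fun i _ => i1 k i) ((i2 k).const_mul _),
      integral_add (integrable_finsetSum _ fun i _ => i3 k i) ((i2 k).const_mul _),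
      integral_finsetSum _ (fun i _ => i1 k i), integral_finsetSum _ (fun i _ => i3 k i),
      integral_const_mul]
    have h1 : ∑ i, ∫ x : Cf n, pd i g (x k) * dv k i v x * w x =
        ∑ i, (-(∫ x, v x * (pd i g (x k) * dv k i w x)) -
          ∫ x, v x * (pd i (pd i g) (x k) * w x)) :=
      Finset.sum_congr rfl fun i _ => pan_key hI g v w hg hv hc hw k i
    have h2 : ∑ i, ∫ x : Cf n, v x * (pd i (pd i g) (x k) * w x) =
        ∫ x : Cf n, v x * (lap g (x k) * w x) := by
      rw [← integral_finsetSum _ (fun i _ => i4 k i)]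
      refine integral_congr_ae (Eventually.of_forall fun x => ?_)
      change ∑ i, v x * (pd i (pd i g) (x k) * w x) = v x * (lap g (x k) * w x)
      unfold lap
      rw [Finset.sum_mul, Finset.mul_sum]
    rw [h1, Finset.sum_sub_distrib, h2, Finset.sum_neg_distrib]
    ring
  · intro k _
    exact (integrable_finsetSum _ fun i _ => i3 k i).add ((i2 k).const_mul _)
  · intro k _
    exact (integrable_finsetSum _ fun i _ => i1 k i).add ((i2 k).const_mul _)

end Pool.Agent.Helper2.PW
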