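import Pool.Agent.Helper95.PW.Stmts

set_option autoImplicit false

namespace Pool.Agent.Helper2.PW

open MeasureTheory Filter
open Pool.Agent.Helper95.PW

theorem dv_eq {n : ℕ} (k : Fin n) (i : Fin 3) (v : Cf n → ℝ) (x : Cf n) :
    dv k i v x = fderiv ℝ v x (Pi.single k (Pi.single i 1)) := rfl

theorem cont_dv {n : ℕ} (k : Fin n) (i : Fin 3) {v : Cf n → ℝ} (hv : ContDiff ℝ 1 v) :
    Continuous (dv k i v) :=
  (hv.continuous_fderiv (by norm_num)).clm_apply continuous_const

theorem cs_dv {n : ℕ} (k : Fin n) (i : Fin 3) {v : Cf n → ℝ} (hv : HasCompactSupport v) :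
    HasCompactSupport (dv k i v) := by
  have h := hv.fderiv (𝕜 := ℝ)
  exact h.comp_left (g := fun L : (Cf n →L[ℝ] ℝ) => L (Pi.single k (Pi.single i 1))) (by simp)

theorem ibp_gen {n : ℕ} (k : Fin n) (i : Fin 3) (f g : Cf n → ℝ) (hf : ContDiff ℝ 1 f)
    (hg : ContDiff ℝ 1 g) (hfg : HasCompactSupport f ∨ HasCompactSupport g) :
    ∫ x, dv k i f x * g x = -∫ x, f x * dv k i g x := by
  have hcf := hf.continuous
  have hcg := hg.continuous
  have hdf := cont_dv k i hf
  have hdg := cont_dv k i hg
  have i1 : Integrable (fun x => dv k i f x * g x) := by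
    apply Continuous.integrable_of_hasCompactSupport (hdf.mul hcg)
    rcases hfg with h | h
    · exact (cs_dv k i h).mul_right
    · exact h.mul_left
  have i2 : Integrable (fun x => f x * dv k i g x) := by
    apply Continuous.integrable_of_hasCompactSupport (hcf.mul hdg)
    rcases hfg with h | h
    · exact h.mul_right
    · exact (cs_dv k i h).mul_left
  have i3 : Integrable (fun x => f x * g x) := by
    apply Continuous.integrable_of_hasCompactSupport (hcf.mul hcg)
    rcases hfg with h | h
    · exact h.mul_right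
    · exact h.mul_left
  have h := integral_mul_fderiv_eq_neg_fderiv_mul_of_integrable (μ := volume)
    (v := (Pi.single k (Pi.single i 1) : Cf n)) i1 i2 i3
    (fun x _ => (hf.differentiable (by norm_num)) x) (fun x _ => (hg.differentiable (by norm_num)) x)
  have h2 : ∫ x, f x * dv k i g x = -∫ x, dv k i f x * g x := h
  rw [h2, neg_neg]

theorem st_IBP : ST_IBP := by
  intro n k i v w hv hc hw
  exact ibp_gen k i v w (hv.of_le (by exact_mod_cast le_top)) (hw.of_le (by exact_mod_cast le_top))
    (Or.inl hc)

end Pool.Agent.Helper2.PW
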